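import Pool.Agent.W622.ETG.Lin

/-! Project ELG: B1H. -/

set_option autoImplicit false

namespace Pool.Agent.W800.ELG

open Pool.Agent.W622.ETG Module

section
variable {V : Type} [AddCommGroup V] [Module (ZMod 2) V] [Finite V] {e : V}

theorem sp_sum' (S : Finset (DSub V)) (ω : DSub V → Frm V)
    (hind : sSupIndep (S : Set (DSub V)))
    (halt : ∀ X ∈ S, EF e (ω X)) (hsp : ∀ X ∈ S, sp (ω X) = X) :
    sp (∑ X ∈ S, ω X) = sSup (S : Set (DSub V)) ∧ EF e (∑ X ∈ S, ω X) := by
  classical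
  induction S using Finset.induction_on with
  | empty => simp [EF.zero]
  | insert X S hX ih =>
    have h1 : sSupIndep (S : Set (DSub V)) := hind.mono (by simp)
    obtain ⟨h2, h3⟩ := ih h1 (fun Y hY => halt Y (Finset.mem_insert_of_mem hY))
      (fun Y hY => hsp Y (Finset.mem_insert_of_mem hY))
    have h4 := halt X (Finset.mem_insert_self X S)
    have h5 := hsp X (Finset.mem_insert_self X S)
    have h6 : Disjoint (sp (ω X)) (sp (∑ Y ∈ S, ω Y)) := by
      rw [h5, h2]
      have h7 := hind (Finset.mem_coe.2 (Finset.mem_insert_self X S))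
      have h8 : ((insert X S : Finset (DSub V)) : Set (DSub V)) \ {X} = (S : Set (DSub V)) := by
        ext Y
        simp only [Finset.coe_insert, Set.mem_sdiff, Set.mem_insert_iff, Finset.mem_coe,
          Set.mem_singleton_iff]
        constructor
        · rintro ⟨h9 | h9, h10⟩
          · exact absurd h9 h10
          · exact h9
        · intro h9
          refine ⟨Or.inr h9, ?_⟩
          rintro rfl
          exact hX h9
      rw [h8] at h7
      exact h7
    rw [Finset.sum_insert hX]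
    refine ⟨?_, h4.add h3⟩
    rw [sp_add h4 h3 h6, h5, h2, Finset.coe_insert, sSup_insert]

omit [Finite V] in
/-- an element common to a member and to the sum of others is zero -/
theorem zero_of_indep' {s t : Set (DSub V)} (h : sSupIndep s) {X : DSub V} (hX : X ∈ s)
    (ht : t ⊆ s \ {X}) {f : Dl V} (hf : f ∈ X) (hf' : f ∈ sSup t) : f = 0 := by
  have h1 : Disjoint X (sSup (s \ {X})) := h hX
  have h2 : f ∈ X ⊓ sSup (s \ {X}) := ⟨hf, sSup_le_sSup ht hf'⟩
  rwa [h1.eq_bot, Submodule.mem_bot] at h2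

end

theorem t_B1H (hOM : S_OM) (hCB1 : S_CB1) (hMD : S_MD) (hHH : S_HH) : S_B1H := by
  classical
  intro V _ _ _ e A F N s₁ s₂ hCB hF hNG hdep hmin hN1 hs1 hs2 hs10 hs20 hs12
  have hA : EFam e A := hCB.mc.ef
  have hlocs : ∀ X, Block e A X → LocBlock e A X := by
    intro X hX
    rcases hX with h | h
    · exact absurd h.1 (hCB.nc X)
    · exact h
  have hom : ∀ X, Block e A X → om e A X ∈ A ∧ sp (om e A X) = X := by
    intro X hX
    obtain ⟨h1, _, h3, _⟩ := hOM V e A X hA (hlocs X hX)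
    exact ⟨h1, h3⟩
  set X₁ : DSub V := Submodule.span (ZMod 2) {s₁} with hX₁
  set X₂ : DSub V := Submodule.span (ZMod 2) {s₂} with hX₂
  have hs1m : s₁ ∈ X₁ := Submodule.mem_span_singleton_self s₁
  have hs2m : s₂ ∈ X₂ := Submodule.mem_span_singleton_self s₂
  have hX12 : X₁ ≠ X₂ := by
    intro h
    have h1 : s₁ ∈ X₂ := h ▸ hs1m
    rcases span_one_mem.1 h1 with h2 | h2
    · exact hs10 h2
    · exact hs12 h2
  have hFN : F ∉ N := fun h => hF.2 (hNG h).2
  have hblk : ∀ Z ∈ insert F (N : Set (DSub V)), Block e A Z := by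
    intro Z hZ
    rcases Set.mem_insert_iff.1 hZ with rfl | hZ
    · exact hF.1
    · exact (hNG hZ).1
  have hGX₁ : X₁ ∈ GB e A := hNG hs1
  have hGX₂ : X₂ ∈ GB e A := hNG hs2
  have hmemX₁ : X₁ ∈ insert F (N : Set (DSub V)) := Set.mem_insert_of_mem _ hs1
  have hmemX₂ : X₂ ∈ insert F (N : Set (DSub V)) := Set.mem_insert_of_mem _ hs2
  have hdne : ∀ X ∈ insert F (N : Set (DSub V)),
      (insert F (N : Set (DSub V))) \ {X} ≠ insert F (N : Set (DSub V)) := by
    intro X hX h
    rw [← h] at hX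
    exact hX.2 rfl
  have hi1 : sSupIndep ((insert F (N : Set (DSub V))) \ {X₁}) :=
    hmin _ Set.sdiff_subset (hdne _ hmemX₁)
  have hi2 : sSupIndep ((insert F (N : Set (DSub V))) \ {X₂}) :=
    hmin _ Set.sdiff_subset (hdne _ hmemX₂)
  have htop2 := hMD V e A _ X₂ hCB hblk hdep hmin hmemX₂ hGX₂.2
  -- the form
  set S : Finset (DSub V) := insert F (N.erase X₂) with hS
  have hFX₂ : F ≠ X₂ := by rintro rfl; exact hFN hs2
  have hFX₁ : F ≠ X₁ := by rintro rfl; exact hFN hs1
  have hScoe : (S : Set (DSub V)) = (insert F (N : Set (DSub V))) \ {X₂} := by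
    ext Z
    simp only [hS, Finset.coe_insert, Finset.coe_erase, Set.mem_insert_iff, Set.mem_sdiff,
      Set.mem_singleton_iff, Finset.mem_coe]
    constructor
    · rintro (h | ⟨h, h'⟩)
      · exact ⟨Or.inl h, by rw [h]; exact hFX₂⟩
      · exact ⟨Or.inr h, h'⟩
    · rintro ⟨h | h, h'⟩
      · exact Or.inl h
      · exact Or.inr ⟨h, h'⟩
  have hSb : ∀ X ∈ S, Block e A X := by
    intro X hX
    have : X ∈ (S : Set (DSub V)) := hX
    rw [hScoe] at this
    exact hblk X this.1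
  have hindS : sSupIndep (S : Set (DSub V)) := by rw [hScoe]; exact hi2
  obtain ⟨hspS, -⟩ := sp_sum' (e := e) S (om e A) hindS (fun X hX => hA _ (hom X (hSb X hX)).1)
    (fun X hX => (hom X (hSb X hX)).2)
  set ζ : Frm V := ∑ X ∈ S, om e A X with hζ
  have hζA : ζ ∈ A := Submodule.sum_mem _ fun X hX => (hom X (hSb X hX)).1
  have hζtop : sp ζ = ⊤ := by rw [hspS, hScoe, htop2]
  obtain ⟨a, ha⟩ : s₁ + s₂ ∈ sp ζ := by rw [hζtop]; exact Submodule.mem_top
  have ha0 : a ≠ 0 := by
    rintro rfl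
    rw [map_zero] at ha
    exact hs12 (add_eq_zero'.1 ha.symm)
  -- the value of the form of X₁
  have hexp : ζ a = om e A F a + ∑ X ∈ N.erase X₂, om e A X a := by
    rw [hζ, LinearMap.sum_apply, hS, Finset.sum_insert]
    intro h
    exact hFN (Finset.mem_of_mem_erase h)
  have hX₁e : X₁ ∈ N.erase X₂ := Finset.mem_erase.2 ⟨hX12, hs1⟩
  have homX₁ : om e A X₁ = sqf s₁ := by
    obtain ⟨o1, o0, o3, -, -, -⟩ := hOM V e A X₁ hA (hlocs X₁ hGX₁.1)
    exact ((hA _ o1).eq_sqf (s := s₁) o3.le o0).1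
  have hs1a : s₁ a = 0 := by
    by_contra hc
    have h1 : s₁ a = 1 := z_ne hc
    have h2 : om e A X₁ a = s₁ := by rw [homX₁, sqf_apply, h1, one_smul]
    rw [ha, ← Finset.add_sum_erase _ _ hX₁e, h2] at hexp
    -- s₂ = om F a + ∑
    have h3 : s₂ = om e A F a + ∑ X ∈ (N.erase X₂).erase X₁, om e A X a := by
      have h4 : s₁ + s₂ = s₁ + (om e A F a + ∑ X ∈ (N.erase X₂).erase X₁, om e A X a) := by
        rw [hexp]; abel
      exact add_left_cancel h4
    have h5 : s₂ ∈ sSup (insert F (((N.erase X₂).erase X₁ : Finset (DSub V)) :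
        Set (DSub V))) := by
      rw [h3]
      refine Submodule.add_mem _ ?_ (Submodule.sum_mem _ fun X hX => ?_)
      · have : F ≤ sSup (insert F (((N.erase X₂).erase X₁ : Finset (DSub V)) :
            Set (DSub V))) := le_sSup (Set.mem_insert _ _)
        apply this
        have h6 : om e A F a ∈ sp (om e A F) := ⟨a, rfl⟩
        rwa [(hom F hF.1).2] at h6
      · have : X ≤ sSup (insert F (((N.erase X₂).erase X₁ : Finset (DSub V)) :
            Set (DSub V))) := le_sSup (Set.mem_insert_of_mem _ hX)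
        apply this
        have hXN : X ∈ N := Finset.mem_of_mem_erase (Finset.mem_of_mem_erase hX)
        have h6 : om e A X a ∈ sp (om e A X) := ⟨a, rfl⟩
        rwa [(hom X (hNG hXN).1).2] at h6
    apply hs20
    refine zero_of_indep' hi1 (X := X₂) ⟨hmemX₂, Ne.symm hX12⟩ ?_ hs2m h5
    intro X hX
    rcases Set.mem_insert_iff.1 hX with h | h
    · rw [h]
      exact ⟨⟨Set.mem_insert _ _, hFX₁⟩, hFX₂⟩
    · have h' := Finset.mem_erase.1 (Finset.mem_coe.1 h)
      have h'' := Finset.mem_erase.1 h'.2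
      exact ⟨⟨Set.mem_insert_of_mem _ h''.2, h'.1⟩, h''.1⟩
  have hne : om e A X₁ a ≠ s₁ := by
    rw [homX₁, sqf_apply, hs1a, zero_smul]
    exact hs10.symm
  obtain ⟨-, hHH2⟩ := hHH V e A X₁ X₂ s₁ s₂ ζ a hCB hGX₁ hGX₂ hX12 hs1m hs2m hs10 hζA ha hne
  have hX₁BL : X₁ ∈ BL e A a := by
    refine ⟨hGX₁.1, ?_⟩
    rw [hX₁, Submodule.span_singleton_le_iff_mem]
    exact hs1a
  have hn := hHH2 ⟨X₁, hX₁BL, hGX₁.2⟩
  rw [hN1 X₁ hs1, hN1 X₂ hs2] at hn
  obtain ⟨hcomps, -, hdim⟩ := hCB1 V e A a hCB ha0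
  have hfin : (BL e A a).Finite := Set.toFinite _
  set T : Finset (DSub V) := hfin.toFinset with hT
  have hTc : T.card = (BL e A a).ncard := (Set.ncard_eq_toFinset_card _ hfin).symm
  have hTcoe : (T : Set (DSub V)) = BL e A a := hfin.coe_toFinset
  have hTb : ∀ X ∈ T, LocBlock e A X := by
    intro X hX
    rw [hT, Set.Finite.mem_toFinset] at hX
    exact hlocs X hX.1
  have hid := idim T (by rw [hTcoe]; exact hcomps.1)
  rw [hTcoe] at hid
  have hge : ∀ X ∈ T, 1 ≤ finrank (ZMod 2) X := fun X hX => (hOM V e A X hA (hTb X hX)).2.2.2.2.1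
  have hsum : T.card ≤ ∑ X ∈ T, finrank (ZMod 2) X := by
    have := Finset.card_nsmul_le_sum T (fun X => finrank (ZMod 2) X) 1 hge
    simpa using this
  have hcard : (BL e A a).ncard + 1 = finrank (ZMod 2) V := by omega
  have hall : ∀ X ∈ T, finrank (ZMod 2) X = 1 := by
    by_contra hc
    push Not at hc
    obtain ⟨X, hX, hX1⟩ := hc
    have h1 : ∑ X ∈ T, 1 < ∑ X ∈ T, finrank (ZMod 2) X := by
      refine Finset.sum_lt_sum hge ⟨X, hX, ?_⟩
      have := hge X hX
      omega
    rw [Finset.sum_const, smul_eq_mul, mul_one] at h1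
    omega
  refine ⟨a, ha0, hs1a, hcard, ?_, ?_⟩
  · intro X hX
    have hXT : X ∈ T := by rw [hT, Set.Finite.mem_toFinset]; exact hX
    have h1 := hall X hXT
    exact ⟨((hOM V e A X hA (hTb X hXT)).2.2.2.2.2 h1).1, h1⟩
  · intro hk
    rw [← ha, hexp]
    have h0 : ∑ X ∈ N.erase X₂, om e A X a = 0 := by
      apply Finset.sum_eq_zero
      intro X hX
      have hX' := Finset.mem_erase.1 hX
      have hb := hom X (hNG hX'.2).1
      rw [(hA _ hb.1).ker_iff_ann, hb.2]
      exact hk X hX'.2 hX'.1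
    rw [h0, add_zero]

end Pool.Agent.W800.ELG
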