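import Pool.Agent.W622.ETG.Stm

/-! Project ELG: BNT. -/

set_option autoImplicit false

namespace Pool.Agent.W800.ELG

open Pool.Agent.W622.ETG Module

theorem t_BNT (hA1 : S_A1) : S_BNT := by
  intro V _ _ _ e A X hM hB
  rcases hB with hB | ⟨ω, ⟨h1, h2, h3⟩, h4, -⟩
  · have h := hA1 V e A X hM hB.1
    obtain ⟨p, hp3, -⟩ := hB.1
    constructor
    · intro hX
      rw [hX, finrank_top, finrank_Dl] at h
      omega
    · intro hX
      rw [hX, finrank_bot] at hp3
      omega
  · constructor
    · intro hX
      apply hM.nel
      have : A = Submodule.span (ZMod 2) {ω} := by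
        ext η
        refine Iff.trans ?_ (span_one_mem (M := Frm V)).symm
        constructor
        · intro hη
          exact h3 η hη (by rw [← h4, hX]; exact le_top)
        · rintro (rfl | rfl)
          · exact A.zero_mem
          · exact h1
      rw [this]
      exact El.loc ω (hM.ef ω h1)
    · intro hX
      exact h2 (sp_eq_bot.1 (h4.symm.trans hX))

end Pool.Agent.W800.ELG
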