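import Pool.Agent.W622.ETG.Stm

/-! Project ELG: NGC. -/

set_option autoImplicit false

namespace Pool.Agent.W800.ELG

open Pool.Agent.W622.ETG Module

theorem card_pow (M : Type) [AddCommMonoid M] [Module (ZMod 2) M] [Finite M] :
    Nat.card M = 2 ^ finrank (ZMod 2) M := by
  let _ : AddCommGroup M := Module.addCommMonoidToAddCommGroup (ZMod 2)
  rw [Module.natCard_eq_pow_finrank (K := ZMod 2) (V := M), Nat.card_zmod]

theorem t_NGC (hLU : S_LU) (hDEC : S_DEC) (hCB1 : S_CB1) (hOM : S_OM) (hSPLIT : S_SPLIT) :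
    S_NGC := by
  intro V _ _ _ e A F hCB hF
  obtain ⟨hblock, hbad⟩ := hF
  have halt : EFam e A := hCB.mc.ef
  have hlink : Linked A := hCB.mc.her.linked
  have hlocs : ∀ X, Block e A X → LocBlock e A X := by
    intro X hX
    rcases hX with h | h
    · exact absurd h.1 (hCB.nc X)
    · exact h
  obtain ⟨hwA, _, hsp, _, _, _⟩ := hOM V e A F halt (hlocs F hblock)
  set w := om e A F with hw
  have hwalt : EF e w := halt w hwA
  unfold Good at hbad
  push Not at hbad
  obtain ⟨c, ζ₀, hζ₀, hf, hno⟩ := hbad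
  set f := ζ₀ c with hfdef
  have hf0 : f ≠ 0 := by
    intro h0
    apply hno 0 (Submodule.zero_mem _)
    rw [h0]
    rfl
  have hc0 : c ≠ 0 := by
    rintro rfl
    apply hf0
    rw [hfdef, map_zero]
  have hfw : f ∈ sp w := by rw [hsp]; exact hf
  obtain ⟨a0, ha0⟩ := hfw
  -- the claim
  have claim : ∀ ζ ∈ A, ζ c = f → ∀ b : V, ζ b = 0 → w b = 0 → b = 0 := by
    intro ζ hζ hζc b hζb hwb
    by_contra hb0
    have hFann : F ≤ ann b := by
      rw [← hsp]
      exact hwalt.ker_iff_ann.1 hwb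
    have hFBL : F ∈ BL e A b := ⟨hblock, hFann⟩
    obtain ⟨hcomps, -, -⟩ := hCB1 V e A b hCB hb0
    obtain ⟨hsum, hdisj, -⟩ := hSPLIT V e (res A (ann b)) (BL e A b) {F} (halt.res _) hcomps
      (Set.singleton_subset_iff.2 hFBL)
    have hζmem : ζ ∈ res A (ann b) := (mem_res_ann halt).2 ⟨hζ, hζb⟩
    rw [hsum] at hζmem
    obtain ⟨ζ1, hζ1, ζ2, hζ2, hadd⟩ := Submodule.mem_sup.1 hζmem
    rw [sSup_singleton] at hdisj hζ1
    have h1 : ζ1 c ∈ F := hζ1.2 c
    have h2 : ζ2 c ∈ sSup (BL e A b \ {F}) := hζ2.2 c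
    have h3 : ζ1 c + ζ2 c = f := by rw [← LinearMap.add_apply, hadd, hζc]
    have h4 : ζ2 c = ζ1 c + f := by
      rw [← h3, ← add_assoc, vadd, zero_add]
    have h5 : ζ2 c ∈ F := by rw [h4]; exact F.add_mem h1 hf
    have h6 : ζ2 c = 0 := (Submodule.disjoint_def.1 hdisj) _ h5 h2
    apply hno ζ1 ⟨hζ1.1.1, hζ1.2⟩
    rw [← h3, h6, add_zero]
  -- injectivity
  have inj : ∀ ζ ∈ A, ζ c = f → ∀ a a' : LinearMap.ker w, ζ (a0 + a.1) = f →
      ζ (a0 + a'.1) = f → a = a' := by
    intro ζ hζ hζc a a' e1 e2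
    have h3 : ζ (a.1 + a'.1) = 0 := by
      have e3 : (a.1 + a'.1) = (a0 + a.1) + (a0 + a'.1) := by
        have := vadd a0
        calc a.1 + a'.1 = (a0 + a0) + (a.1 + a'.1) := by rw [this, zero_add]
          _ = _ := by abel
      rw [e3, map_add, e1, e2, vadd]
    have h4 : w (a.1 + a'.1) = 0 := by
      rw [map_add, LinearMap.mem_ker.1 a.2, LinearMap.mem_ker.1 a'.2, add_zero]
    have h5 := claim ζ hζ hζc _ h3 h4
    exact Subtype.ext (add_eq_zero'.1 h5)
  -- linked members
  have hex : ∀ a : LinearMap.ker w, ∃ ζ ∈ A, ζ (a0 + a.1) = f ∧ ζ c = f := by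
    intro a
    have ha : w (a0 + a.1) = f := by
      rw [map_add, ha0, LinearMap.mem_ker.1 a.2, add_zero]
    obtain ⟨ζ, hζ, h1, h2⟩ := hlink w hwA ζ₀ hζ₀ (a0 + a.1) c (by rw [ha])
    exact ⟨ζ, hζ, by rw [h1, ha], by rw [h2, ha]⟩
  choose Z hZA hZ1 hZ2 using hex
  have hcanc : ∀ α β γ : Frm V, α + γ = β + γ → α = β := by
    intro α β γ h
    refine LinearMap.ext fun v => ?_
    have h' := congrArg (fun η : Frm V => η v) h
    simp only [LinearMap.add_apply] at h'
    exact add_right_cancel h'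
  let g : LinearMap.ker w → res A (ann c) := fun a =>
    ⟨Z a + Z 0, (mem_res_ann halt).2 ⟨A.add_mem (hZA a) (hZA 0), by
      rw [LinearMap.add_apply, hZ2, hZ2, vadd]⟩⟩
  have hg : Function.Injective g := by
    intro a a' haa
    have h1 : Z a + Z 0 = Z a' + Z 0 := congrArg Subtype.val haa
    have h2 : Z a = Z a' := hcanc _ _ _ h1
    exact inj (Z a) (hZA a) (hZ2 a) a a' (hZ1 a) (by rw [h2]; exact hZ1 a')
  have hcard := Nat.card_le_card_of_injective g hg
  rw [card_pow (LinearMap.ker w), card_pow (res A (ann c))] at hcard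
  have hle := (Nat.pow_le_pow_iff_right (by norm_num)).1 hcard
  have hrk := finrank_sp_add_ker w
  rw [hsp] at hrk
  obtain ⟨-, hfr, -⟩ := hCB1 V e A c hCB hc0
  refine ⟨c, hc0, ?_, ?_⟩
  · rw [hfr] at hle
    omega
  · rintro ⟨X, hX, hXg⟩
    obtain ⟨xA, x0, xsp, xall, -, -⟩ := hOM V e A X halt (hlocs X hX.1)
    set x := om e A X with hx
    have hxc : x c = 0 := by
      rw [(halt x xA).ker_iff_ann, xsp]
      exact hX.2
    obtain ⟨hd1, hd2, -⟩ := hDEC V e A X halt
    have hparts : ∀ ζ ∈ A, ∃ π, IsPr A X ζ π :=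
      hd1 (hLU V e (res A X) (halt.res X) (hCB.mc.her.res X)) hXg
    choose P hP using fun a : LinearMap.ker w => hparts (Z a) (hZA a)
    let Y : LinearMap.ker w → Frm V := fun a => Z a + P a
    have hPA : ∀ a, P a ∈ A := fun a => (hP a).1.1
    have hYA : ∀ a, Y a ∈ A := fun a => A.add_mem (hZA a) (hPA a)
    have hPc : ∀ a, P a c = 0 := by
      intro a
      rcases xall (P a) (hP a).1 with h | h
      · rw [h]; rfl
      · rw [h]; exact hxc
    have hYc : ∀ a, Y a c = f := by
      intro a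
      show (Z a + P a) c = f
      rw [LinearMap.add_apply, hPc, hZ2, add_zero]
    have hYa : ∀ a : LinearMap.ker w, Y a (a0 + a.1) = f := by
      intro a
      have h1 : Y a (a0 + a.1) = f + P a (a0 + a.1) := by
        show (Z a + P a) (a0 + a.1) = _
        rw [LinearMap.add_apply, hZ1]
      have h2 : P a (a0 + a.1) ∈ sp (Y a) := by
        have h3 : P a (a0 + a.1) = Y a (a0 + a.1) + Y a c := by
          rw [h1, hYc, add_comm f, add_cancel']
        rw [h3]
        exact Submodule.add_mem _ ⟨_, rfl⟩ ⟨_, rfl⟩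
      have h3 : P a (a0 + a.1) = 0 :=
        (Submodule.disjoint_def.1 (hP a).2) _ h2 ((hP a).1.2 _)
      rw [h1, h3, add_zero]
    have hpr0 : ∀ a, IsPr A X (Y a) 0 := by
      intro a
      refine ⟨Submodule.zero_mem _, ?_⟩
      rw [add_zero]
      exact (hP a).2
    have hne : ∀ a a', Y a + x ≠ Y a' := by
      intro a a' h
      have h1 : IsPr A X (Y a') x := by
        refine ⟨?_, ?_⟩
        · exact mem_res'.2 ⟨xA, xsp.le⟩
        · rw [← h, add_assoc, vadd (V := Frm V), add_zero]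
          exact (hP a).2
      exact x0 (hd2 (Y a') (hYA a') x 0 h1 (hpr0 a'))
    let g' : LinearMap.ker w × ZMod 2 → res A (ann c) := fun a =>
      ⟨Y a.1 + a.2 • x + Y 0, (mem_res_ann halt).2 ⟨A.add_mem (A.add_mem (hYA _)
        (A.smul_mem _ xA)) (hYA 0), by
        rw [LinearMap.add_apply, LinearMap.add_apply, LinearMap.smul_apply, hxc, smul_zero,
          add_zero, hYc, hYc, vadd]⟩⟩
    have hg' : Function.Injective g' := by
      rintro ⟨a, s⟩ ⟨a', s'⟩ haa
      have h1 : Y a + s • x + Y 0 = Y a' + s' • x + Y 0 := congrArg Subtype.val haa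
      have h2 : Y a + s • x = Y a' + s' • x := hcanc _ _ _ h1
      have hfin : ∀ b b', Y b = Y b' → b = b' := fun b b' h =>
        inj (Y b) (hYA b) (hYc b) b b' (hYa b) (by rw [h]; exact hYa b')
      rcases z01 s with rfl | rfl <;> rcases z01 s' with rfl | rfl
      · rw [zero_smul, add_zero, add_zero] at h2
        rw [hfin a a' h2]
      · rw [zero_smul, add_zero, one_smul] at h2
        exact absurd h2.symm (hne a' a)
      · rw [zero_smul, add_zero, one_smul] at h2
        exact absurd h2 (hne a a')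
      · rw [hfin a a' (hcanc _ _ _ h2)]
    have hcard' := Nat.card_le_card_of_injective g' hg'
    rw [Nat.card_prod, Nat.card_zmod, card_pow (LinearMap.ker w), card_pow (res A (ann c)),
      ← pow_succ] at hcard'
    have hle' := (Nat.pow_le_pow_iff_right (by norm_num)).1 hcard'
    rw [hfr] at hle'
    omega

end Pool.Agent.W800.ELG
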